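import Pool.Agent.KS6_69.FB.B

/-!
# A group without a finite basis of laws, with a normal subgroup of index three based on `x ^ 16`

The laws of the group `Γ` of exponent `48` are not finitely based; it has a normal subgroup `H` of
index three all whose laws are consequences of the single law `x ^ 16`. An explicit sequence of laws
of `Γ`, the words `[c, z c z⁻¹]` with `c = [x₀, x₁ ^ 16]` and `z = x₂ ^ 2 ⋯ x_{m+2} ^ 2`, is not a
consequence of any finite set of laws of `Γ`.
-/

set_option autoImplicit false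

namespace Pool.Agent.Results.MP_233a97_al.IndexThree

open Pool.Agent.KS6_69.FB.A Pool.Agent.KS6_69.FB.B

/-- The product `x₂ ^ 2 ⋯ x_{m + 2} ^ 2`. -/
def squares : ℕ → FreeGroup ℕ
  | 0 => 1
  | m + 1 => squares m * FreeGroup.of (m + 2) ^ 2

/-- The commutator `a b a⁻¹ b⁻¹`. -/
def com (a b : FreeGroup ℕ) : FreeGroup ℕ := a * b * a⁻¹ * b⁻¹

/-- The word `[c, z c z⁻¹]` with `c = [x₀, x₁ ^ 16]` and `z = x₂ ^ 2 ⋯ x_{m + 1} ^ 2`. -/
def word (m : ℕ) : FreeGroup ℕ :=
  com (com (FreeGroup.of 0) (FreeGroup.of 1 ^ 16))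
    (squares m * com (FreeGroup.of 0) (FreeGroup.of 1 ^ 16) * (squares m)⁻¹)

lemma squares_eq (m : ℕ) : squares m = pw (fun i => FreeGroup.of (i + 2)) m := by
  induction m with
  | zero => rfl
  | succ m ih => rw [squares, ih]; rfl

lemma word_eq (m : ℕ) : word m = wd FreeGroup.of m := by
  rw [word, squares_eq]; rfl

/-- There are a group `G` of exponent `48` and a normal subgroup `H` of index three such that the
single law `x ^ 16` is a basis of the laws of `H`, but the laws of `G` are not finitely based: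
all words `word (m + 1)` are laws of `G`, and no finite set of laws of `G` implies all of them. -/
theorem result : ∃ (G : Type) (_ : Group G) (H : Subgroup G), H.Normal ∧ H.index = 3 ∧
    (∀ g : G, g ^ 48 = 1) ∧ IsBasis {FreeGroup.of 0 ^ 16} H ∧
    (∀ m, ∀ φ : FreeGroup ℕ →* G, φ (word (m + 1)) = 1) ∧
    (∀ S : Set (FreeGroup ℕ), S.Finite → (∀ s ∈ S, ∀ φ : FreeGroup ℕ →* G, φ s = 1) →
      ∃ m, word (m + 1) ∉ Subgroup.closure
        {v : FreeGroup ℕ | ∃ s ∈ S, ∃ ψ : FreeGroup ℕ →* FreeGroup ℕ, ψ s = v}) ∧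
    ¬ ∃ S : Set (FreeGroup ℕ), S.Finite ∧ IsBasis S G := by
  obtain ⟨G, inst, H, h1, ⟨e⟩, ⟨f, hf, hker⟩, h2, h3, h4⟩ := main
  have hcard : Nat.card (GaloisField 2 2)ˣ = 3 := by
    rw [Nat.card_units, GaloisField.card 2 2 (by norm_num)]
    norm_num
  refine ⟨G, inst, H, h1, ?_, ?_, h2, fun m φ => by rw [word_eq]; exact h3 m φ, ?_, ?_⟩
  · rw [Subgroup.index, Nat.card_congr e, hcard]
  · intro g
    have hg : g ^ 3 ∈ H := by
      rw [← hker, MonoidHom.mem_ker, map_pow, ← hcard, pow_card_eq_one']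
    have := h2.1 _ rfl (FreeGroup.lift fun _ => (⟨g ^ 3, hg⟩ : H))
    simp only [map_pow, FreeGroup.lift_apply_of] at this
    have h5 := congrArg Subtype.val this
    simp only [SubmonoidClass.coe_pow, OneMemClass.coe_one] at h5
    rw [← pow_mul] at h5
    exact h5
  · intro S hS hl
    obtain ⟨m, hm⟩ := h4 S hS hl
    exact ⟨m, by rw [word_eq]; exact hm⟩
  · rintro ⟨S, hS, hl, hb⟩
    obtain ⟨m, hm⟩ := h4 S hS hl
    exact hm (hb _ (h3 m))

end Pool.Agent.Results.MP_233a97_al.IndexThree
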